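import Pool.Agent.N123.ZE.RAREKA

/-!
# Project ZE (helper869), part A-RARE (helper123): degenerate labels are rare for random colourings

After `Pool/Agent/N124/QT/FBB.lean` and `FBC.lean` (helper124) and `Pool/Agent/N789/JL/BAD.lean`.
-/

set_option autoImplicit false
set_option linter.unusedVariables false

open scoped Classical

namespace Pool.Agent.N123.ZE.RAREK

open Finset Filter
open Pool.Agent.Y699.E (sum_le_inj)
open Pool.Agent.Y703.CX (sm la eL zz kk S_SIE)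
open Pool.Agent.Y703.CQ (nr)
open Pool.Agent.N973.ND (uu)
open Pool.Agent.N916.GB (Po SA HD S_HAL S_ME8)
open Pool.Agent.Y495.CX.Few (PN euler prod_pos' le_of_mem_prod mert eL_tendsto log_small zz_ge
  loglog_zz rpow_eq)
open Pool.Agent.N124.QT (av pr_le_av av_sum av_add av_mul av_prod card_pos')
open Pool.Agent.N869.QT.G (pr)
open Pool.Agent.N869.ZE.A (NdK S_RAREK)

/-- the product -/
def pN (S : Finset ℕ) : ℕ := ∏ p ∈ S, p

lemma pN_pos {S : Finset ℕ} (h : ∀ u ∈ S, Po u) : 0 < pN S := prod_pos' fun p hp => (h p hp).1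

/-- the general estimate, with weights -/
theorem genN (a b κ : ℝ) (c : ℕ) (ha : 0 ≤ a) (hb : 0 ≤ b) (hκ : 0 < κ) (hκ1 : κ ≤ 1)
    (Fx : Finset ℕ) (w : ℕ → Finset ℕ → ℝ)
    (hcount : ∀ (X : ℕ) (S₀ : Finset ℕ), (∀ u ∈ S₀, Po u ∧ u ≤ zz X) → S₀.card ≤ kk X →
      1 ≤ kk X → 3 ≤ X / pN S₀ →
      ∑ S ∈ (SA X).filter (fun S => (S.card ≤ kk X ∧ Disjoint S Fx) ∧ sm (zz X) S = S₀), w X S ≤
        b * a ^ S₀.card * (kk X : ℝ) ^ c * (1 + Real.log (pN S₀)) * (((X / pN S₀ : ℕ) : ℝ) *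
          (Real.log ((X / pN S₀ : ℕ) : ℝ)) ^ (-κ))) :
    ∀ ε : ℝ, 0 < ε → ∃ X₀ : ℕ, ∀ X : ℕ, X₀ ≤ X →
      ∑ S ∈ (SA X).filter (fun S => S.card ≤ kk X ∧ Disjoint S Fx), w X S ≤ ε * X := by
  intro ε hε
  obtain ⟨C, hC0, hC⟩ := mert
  have hlim : Tendsto (fun l : ℝ => (297 * b * 11 ^ c * Real.exp (a * C)) * Real.exp (-(κ / 2) * l))
      atTop (nhds 0) := by
    have h1 : Tendsto (fun l : ℝ => Real.exp (-(κ / 2) * l)) atTop (nhds 0) := by
      refine Real.tendsto_exp_atBot.comp ?_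
      exact tendsto_id.const_mul_atTop_of_neg (by linarith)
    have := h1.const_mul (297 * b * 11 ^ c * Real.exp (a * C))
    rwa [mul_zero] at this
  have hpow : ∀ᶠ l : ℝ in atTop, 33 * l ^ 4 + 3 ≤ Real.exp l := by
    have h1 := (Real.isLittleO_pow_exp_atTop (n := 4)).bound (show (0:ℝ) < 1 / 66 by norm_num)
    filter_upwards [h1, eventually_ge_atTop (2:ℝ)] with l hl hl2
    rw [Real.norm_of_nonneg (by positivity), Real.norm_of_nonneg (Real.exp_pos _).le] at hl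
    have h2 : (16:ℝ) ≤ l ^ 4 := by
      have := pow_le_pow_left₀ (by norm_num : (0:ℝ) ≤ 2) hl2 4
      linarith
    linarith
  have hev := (((eL_tendsto.eventually (log_small (4 + c + 3 * a) (κ / 2) (by linarith))).and
    (eL_tendsto.eventually (eventually_ge_atTop 2))).and
    (eL_tendsto.eventually (hlim.eventually (gt_mem_nhds hε)))).and (eL_tendsto.eventually hpow)
  obtain ⟨X₀, hX₀⟩ := eventually_atTop.1 hev
  refine ⟨max X₀ 3, fun X hX => ?_⟩
  obtain ⟨⟨⟨k1, k2⟩, k3⟩, k4⟩ := hX₀ X ((le_max_left _ _).trans hX)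
  have hX3 : 3 ≤ X := (le_max_right _ _).trans hX
  set ℓ : ℝ := eL X with hℓ
  set z : ℕ := zz X with hz
  set k : ℕ := kk X with hk
  have hl0 : 0 < ℓ := by linarith
  have hlX : Real.log X = Real.exp ℓ := by
    have := rpow_eq (X := X) k2 1
    rwa [Real.rpow_one, one_mul] at this
  have hX0 : (0 : ℝ) < X := by exact_mod_cast (by omega : 0 < X)
  have hk11 : (k : ℝ) ≤ 11 * ℓ := by
    have h := Nat.ceil_lt_add_one (show (0 : ℝ) ≤ 10 * eL X by rw [← hℓ]; positivity)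
    have h' : (k : ℝ) < 10 * ℓ + 1 := h
    linarith
  have hk1 : 1 ≤ k := by
    have h : (10 * ℓ : ℝ) ≤ k := Nat.le_ceil _
    have h' : (1 : ℝ) ≤ k := by linarith
    exact_mod_cast h'
  have hz3 : 3 ≤ z := zz_ge k2
  have hz0 : (0 : ℝ) < z := by exact_mod_cast (by omega : 0 < z)
  have hzlog : Real.log z ≤ ℓ ^ 3 := by
    rw [Real.log_le_iff_le_exp hz0]
    exact Nat.floor_le (Real.exp_pos _).le
  have hzlog0 : 0 < Real.log z := Real.log_pos (by exact_mod_cast (by omega : 1 < z))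
  have hl4 : (1 : ℝ) ≤ ℓ ^ 4 := one_le_pow₀ (by linarith)
  set F := (SA X).filter (fun S => S.card ≤ k ∧ Disjoint S Fx) with hFdef
  set D := (range (z + 1)).filter (fun p => Po p) with hD
  set W : Finset (Finset ℕ) := D.powerset.filter fun S => S.card ≤ k with hW
  have hmaps : ∀ S ∈ F, sm z S ∈ W := by
    intro S hS
    rw [hFdef, mem_filter] at hS
    rw [hW, mem_filter, mem_powerset]
    refine ⟨?_, (card_le_card (filter_subset _ _)).trans hS.2.1⟩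
    intro p hp
    unfold sm at hp
    rw [mem_filter] at hp
    rw [hD, mem_filter, mem_range]
    exact ⟨by omega, (SA_mem.1 hS.1).1 p hp.1⟩
  have hcard : ∑ S ∈ F, w X S = ∑ S₀ ∈ W, ∑ S ∈ F.filter (fun S => sm z S = S₀), w X S :=
    (sum_fiberwise_of_maps_to hmaps _).symm
  have hone : ∀ S₀ ∈ W, ∑ S ∈ F.filter (fun S => sm z S = S₀), w X S ≤
      (∏ p ∈ S₀, (a * (1 / (p : ℝ)))) * (297 * b * 11 ^ c * ℓ ^ c * ℓ ^ 4 * X *
        Real.exp (-κ * ℓ)) := by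
    intro S₀ hS₀
    rw [hW, mem_filter, mem_powerset] at hS₀
    have hpq : ∀ u ∈ S₀, Po u ∧ u ≤ z := fun u hu => by
      have := hS₀.1 hu
      rw [hD, mem_filter, mem_range] at this
      exact ⟨this.2, by omega⟩
    have hprod : ∏ p ∈ S₀, (a * (1 / (p : ℝ))) = a ^ S₀.card * (1 / (pN S₀ : ℝ)) := by
      rw [prod_mul_distrib, prod_const, prod_div_distrib, prod_const_one]
      unfold pN
      push_cast
      rfl
    rw [hprod]
    set N := pN S₀ with hN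
    have hN0 : 0 < N := pN_pos fun u hu => (hpq u hu).1
    have hN0' : (0 : ℝ) < N := by exact_mod_cast hN0
    have hlN : Real.log N ≤ 11 * ℓ ^ 4 := by
      have e1 : Real.log N = ∑ p ∈ S₀, Real.log p := by
        rw [hN]
        unfold pN
        push_cast
        rw [Real.log_prod]
        intro p hp
        have := (hpq p hp).1.1.ne_zero
        exact_mod_cast this
      rw [e1]
      calc ∑ p ∈ S₀, Real.log p ≤ ∑ _p ∈ S₀, Real.log z := by
            refine sum_le_sum fun p hp => ?_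
            exact Real.log_le_log (by exact_mod_cast (hpq p hp).1.1.pos)
              (by exact_mod_cast (hpq p hp).2)
        _ = S₀.card * Real.log z := by rw [sum_const, nsmul_eq_mul]
        _ ≤ (11 * ℓ) * ℓ ^ 3 := by
            refine mul_le_mul (le_trans (by exact_mod_cast hS₀.2) hk11) hzlog hzlog0.le
              (by positivity)
        _ = 11 * ℓ ^ 4 := by ring
    have hlN0 : 0 ≤ Real.log N := Real.log_natCast_nonneg _
    have hlgN : 1 + Real.log N ≤ 33 * ℓ ^ 4 := by linarith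
    have hYle : ((X / N : ℕ) : ℝ) ≤ (X : ℝ) / N := Nat.cast_div_le
    have hYge : Real.exp (Real.log X / 3) ≤ ((X / N : ℕ) : ℝ) := by
      have e1 : (X : ℝ) / N < ((X / N : ℕ) : ℝ) + 1 := by
        rw [div_lt_iff₀ hN0']
        have := Nat.lt_mul_div_succ X hN0
        have h' : ((X : ℕ) : ℝ) < ((N * (X / N + 1) : ℕ) : ℝ) := by exact_mod_cast this
        rw [Nat.cast_mul, Nat.cast_add, Nat.cast_one] at h'
        linarith
      have e2 : Real.exp (Real.log X - Real.log N) = (X : ℝ) / N := by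
        rw [Real.exp_sub, Real.exp_log hX0, Real.exp_log hN0']
      have e3 : Real.exp (Real.log X / 3 + 1) ≤ (X : ℝ) / N := by
        rw [← e2]
        apply Real.exp_le_exp.2
        rw [← hlX] at k4
        linarith
      rw [Real.exp_add] at e3
      have e4 : (2 : ℝ) ≤ Real.exp 1 := by have := Real.exp_one_gt_d9; linarith
      have e5 : (1 : ℝ) ≤ Real.exp (Real.log X / 3) := by
        apply Real.one_le_exp
        rw [hlX]
        positivity
      nlinarith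
    have hX9 : (3 : ℝ) ≤ Real.log X / 3 := by
      rw [hlX]
      linarith
    have hY3 : 3 ≤ X / N := by
      have e1 := Real.add_one_le_exp (Real.log X / 3)
      have : (3:ℝ) ≤ ((X / N : ℕ) : ℝ) := by linarith
      exact_mod_cast this
    have hY0 : (0 : ℝ) < ((X / N : ℕ) : ℝ) := by exact_mod_cast (by omega : 0 < X / N)
    have h1 := hcount X S₀ hpq hS₀.2 hk1 hY3
    have hFF : F.filter (fun S => sm z S = S₀) =
        (SA X).filter (fun S => (S.card ≤ kk X ∧ Disjoint S Fx) ∧ sm (zz X) S = S₀) := by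
      rw [hFdef, filter_filter]
    rw [hFF]
    refine h1.trans ?_
    have hlgY : Real.exp ℓ / 3 ≤ Real.log ((X / N : ℕ) : ℝ) := by
      rw [← hlX, Real.le_log_iff_exp_le hY0]
      exact hYge
    have hlY0 : 0 < Real.log ((X / N : ℕ) : ℝ) := lt_of_lt_of_le (by positivity) hlgY
    have hrp : (Real.log ((X / N : ℕ) : ℝ)) ^ (-κ) ≤ 3 * Real.exp (-κ * ℓ) := by
      have e1 : (Real.log ((X / N : ℕ) : ℝ)) ^ (-κ) ≤ (Real.exp ℓ / 3) ^ (-κ) :=
        Real.rpow_le_rpow_of_nonpos (by positivity) hlgY (by linarith)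
      refine e1.trans ?_
      rw [Real.div_rpow (Real.exp_pos _).le (by norm_num), ← Real.exp_mul, div_eq_mul_inv,
        ← Real.rpow_neg (by norm_num), neg_neg, mul_comm ℓ, mul_comm]
      refine mul_le_mul_of_nonneg_right ?_ (Real.exp_pos _).le
      calc (3:ℝ) ^ κ ≤ 3 ^ (1:ℝ) :=
            Real.rpow_le_rpow_of_exponent_le (by norm_num) hκ1
        _ = 3 := Real.rpow_one _
    have hlg0 : 0 ≤ 1 + Real.log N := by linarith
    have hrp0 : 0 ≤ (Real.log ((X / N : ℕ) : ℝ)) ^ (-κ) := Real.rpow_nonneg hlY0.le _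
    have hkc : (k : ℝ) ^ c ≤ (11 * ℓ) ^ c := pow_le_pow_left₀ (Nat.cast_nonneg _) hk11 c
    calc b * a ^ S₀.card * (k : ℝ) ^ c * (1 + Real.log N) * (((X / N : ℕ) : ℝ) *
          (Real.log ((X / N : ℕ) : ℝ)) ^ (-κ))
        ≤ b * a ^ S₀.card * (11 * ℓ) ^ c * (33 * ℓ ^ 4) *
          (((X : ℝ) / N) * (3 * Real.exp (-κ * ℓ))) := by
          gcongr
      _ ≤ _ := by
          have : b * a ^ S₀.card * (11 * ℓ) ^ c * (33 * ℓ ^ 4) *
            (((X : ℝ) / N) * (3 * Real.exp (-κ * ℓ))) =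
            (a ^ S₀.card * (1 / (N : ℝ))) * (99 * b * 11 ^ c * ℓ ^ c * ℓ ^ 4 * X *
              Real.exp (-κ * ℓ)) := by
            rw [mul_pow]
            ring
          rw [this]
          gcongr
          norm_num
  have hnn : ∀ p : ℕ, 0 ≤ a * (1 / (p : ℝ)) := fun p => mul_nonneg ha (by positivity)
  have hsum : ∑ S ∈ F, w X S ≤ Real.exp (a * ∑ p ∈ PN z, (1 : ℝ) / p) *
      (297 * b * 11 ^ c * ℓ ^ c * ℓ ^ 4 * X * Real.exp (-κ * ℓ)) := by
    rw [hcard]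
    refine (sum_le_sum hone).trans ?_
    rw [← sum_mul]
    refine mul_le_mul_of_nonneg_right ?_ (by positivity)
    have e1 : ∑ S₀ ∈ W, ∏ p ∈ S₀, (a * (1 / (p : ℝ))) ≤
        ∑ S₀ ∈ D.powerset, ∏ p ∈ S₀, (a * (1 / (p : ℝ))) :=
      sum_le_sum_of_subset_of_nonneg (filter_subset _ _) fun S _ _ => prod_nonneg fun p _ => hnn p
    refine e1.trans ((euler D _ fun p _ => hnn p).trans ?_)
    apply Real.exp_le_exp.2
    rw [← mul_sum]
    refine mul_le_mul_of_nonneg_left ?_ ha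
    refine sum_le_sum_of_subset_of_nonneg ?_ fun _ _ _ => by positivity
    intro p hp
    rw [hD, mem_filter, mem_range] at hp
    rw [mem_filter, mem_Icc]
    exact ⟨⟨hp.2.1.pos, by omega⟩, hp.2.1⟩
  have hM : a * ∑ p ∈ PN z, (1 : ℝ) / p ≤ a * C + 3 * a * Real.log ℓ := by
    have h1 := hC z hz3
    have h2 := loglog_zz k2
    have h3 : ∑ p ∈ PN z, (1 : ℝ) / p ≤ 3 * Real.log ℓ + C := by linarith
    have := mul_le_mul_of_nonneg_left h3 ha
    linarith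
  have hl4' : ∀ n : ℕ, ℓ ^ n = Real.exp (n * Real.log ℓ) := by
    intro n
    rw [← Real.log_pow]
    exact (Real.exp_log (by positivity)).symm
  calc ∑ S ∈ F, w X S ≤ Real.exp (a * C + 3 * a * Real.log ℓ) *
        (297 * b * 11 ^ c * ℓ ^ c * ℓ ^ 4 * X * Real.exp (-κ * ℓ)) := by
        refine hsum.trans ?_
        gcongr
    _ = 297 * b * 11 ^ c * Real.exp (a * C) *
        Real.exp ((4 + c + 3 * a) * Real.log ℓ - κ * ℓ) * X := by
        rw [hl4' c, hl4' 4, Real.exp_add, show (4 + c + 3 * a) * Real.log ℓ - κ * ℓ =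
          3 * a * Real.log ℓ + (c * Real.log ℓ + ((4 : ℕ) : ℝ) * Real.log ℓ) + -κ * ℓ by
            push_cast; ring, Real.exp_add, Real.exp_add, Real.exp_add]
        ring
    _ ≤ 297 * b * 11 ^ c * Real.exp (a * C) * Real.exp (-(κ / 2) * ℓ) * X := by
        gcongr
        linarith
    _ ≤ ε * X := by
        refine mul_le_mul_of_nonneg_right ?_ hX0.le
        exact le_of_lt k3

/-- the large parts -/
theorem fiberW (X z : ℕ) (S₀ : Finset ℕ) (hS₀ : ∀ u ∈ S₀, Po u)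
    (F : Finset (Finset ℕ)) (hF : ∀ S ∈ F, S ∈ SA X ∧ sm z S = S₀) (h : ℕ → ℝ)
    (hh : ∀ p, 0 ≤ h p) :
    ∑ S ∈ F, ∏ p ∈ la z S, h p ≤ ∑ T ∈ SA (X / pN S₀), ∏ p ∈ T, h p := by
  refine sum_le_inj (fun S => la z S) ?_ ?_ ?_ ?_
  · intro S hS
    obtain ⟨h1, h2⟩ := SA_mem.1 (hF S hS).1
    rw [SA_mem]
    refine ⟨fun p hp => h1 p (filter_subset _ _ hp), ?_⟩
    rw [Nat.le_div_iff_mul_le (pN_pos hS₀), mul_comm]
    have : (∏ p ∈ sm z S, p) * ∏ p ∈ la z S, p = ∏ p ∈ S, p :=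
      prod_filter_mul_prod_filter_not _ _ _
    unfold pN
    rw [← (hF S hS).2, this]
    exact h2
  · intro S hS T hT h
    have key : ∀ S : Finset ℕ, sm z S ∪ la z S = S := fun S => filter_union_filter_not_eq _ _
    have h' : la z S = la z T := h
    rw [← key S, ← key T, (hF S hS).2, (hF T hT).2, h']
  · intro S hS
    exact le_rfl
  · intro T _
    exact prod_nonneg fun p _ => hh p

/-- powers of three -/
lemma three_pow_le {k t : ℕ} (K s : ℕ) (ht : t ≤ k) (hk : 1 ≤ k) :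
    (3 : ℝ) ^ (K * (s + Nat.log 2 t + 1)) ≤ 3 ^ K * (3 ^ K) ^ s * (k : ℝ) ^ (2 * K) := by
  have h1 : (3 : ℝ) ^ (K * (s + Nat.log 2 t + 1)) =
      3 ^ K * (3 ^ K) ^ s * ((3 : ℝ) ^ Nat.log 2 t) ^ K := by
    rw [← pow_mul, ← pow_mul, ← pow_add, ← pow_add]
    congr 1
    ring
  rw [h1]
  have h2 : (3 : ℝ) ^ Nat.log 2 t ≤ (k : ℝ) ^ 2 := by
    have h3 : Nat.log 2 t ≤ Nat.log 2 k := Nat.log_mono_right ht
    have h4 : 2 ^ Nat.log 2 k ≤ k := Nat.pow_log_le_self 2 (by omega)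
    have h5 : ((2 : ℝ) ^ Nat.log 2 k) ≤ k := by exact_mod_cast h4
    calc (3 : ℝ) ^ Nat.log 2 t ≤ 3 ^ Nat.log 2 k := pow_le_pow_right₀ (by norm_num) h3
      _ ≤ 4 ^ Nat.log 2 k := pow_le_pow_left₀ (by norm_num) (by norm_num) _
      _ = ((2 : ℝ) ^ Nat.log 2 k) ^ 2 := by
          rw [← pow_mul, mul_comm, pow_mul]
          norm_num
      _ ≤ (k : ℝ) ^ 2 := by gcongr
  calc 3 ^ K * (3 ^ K) ^ s * ((3 : ℝ) ^ Nat.log 2 t) ^ K ≤
      3 ^ K * (3 ^ K) ^ s * ((k : ℝ) ^ 2) ^ K := by gcongr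
    _ = 3 ^ K * (3 ^ K) ^ s * (k : ℝ) ^ (2 * K) := by rw [pow_mul (k : ℝ) 2 K]

lemma uu_zero {p : ℕ} (h : p % 8 = 1) : uu p = 0 := by
  unfold uu
  rw [if_neg (by omega)]

lemma uu_one {p : ℕ} (h : uu p = 1) : p % 4 = 3 := by
  unfold uu at h
  by_contra hc
  rw [if_neg hc] at h
  exact absurd h (by decide)

lemma uu_one' {p : ℕ} (h : p % 4 = 3) : uu p = 1 := by
  unfold uu
  rw [if_pos h]

/-- the pointwise bound -/
theorem ptw {Q : Type} [Fintype Q] (F : Finset ℕ) (K : ℕ) (S₀ T : Finset ℕ)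
    (hT : ∀ p ∈ T, p ∉ S₀ ∪ F) (γ : ℕ → Q) (M : ℝ)
    (hM : (3 : ℝ) ^ (K * ((S₀ ∪ F).card + Nat.log 2 T.card + 1)) ≤ M) (h : ¬ NdK F K γ S₀ T) :
    1 ≤ ∑ q : Q, (∑ W ∈ (S₀ ∪ F).powerset.filter (fun W => W.Nonempty),
      ∏ p ∈ T.filter (fun p => γ p = q), gW W p +
      M * ∏ p ∈ T.filter (fun p => γ p = q), g3 p) := by
  have hg0 : ∀ (W : Finset ℕ) (p : ℕ), 0 ≤ gW W p := fun W p => by
    have := gW_ge W p
    linarith
  have h30 : ∀ (p : ℕ), 0 ≤ g3 p := fun p => by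
    have := g3_ge p
    linarith
  have hM0 : 0 ≤ M := le_trans (by positivity) hM
  have hA0 : ∀ q : Q, 0 ≤ ∑ W ∈ (S₀ ∪ F).powerset.filter (fun W => W.Nonempty),
      ∏ p ∈ T.filter (fun p => γ p = q), gW W p :=
    fun q => sum_nonneg fun W _ => prod_nonneg fun p _ => hg0 W p
  have hB0 : ∀ q : Q, 0 ≤ M * ∏ p ∈ T.filter (fun p => γ p = q), g3 p :=
    fun q => mul_nonneg hM0 (prod_nonneg fun p _ => h30 p)
  unfold NdK at h
  push Not at h
  obtain ⟨q, hq⟩ := h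
  refine le_trans ?_ (single_le_sum (fun q _ => add_nonneg (hA0 q) (hB0 q)) (mem_univ q))
  have hA := hA0 q
  have hB := hB0 q
  by_cases hN : ∀ w : ℕ → ZMod 2, (∃ u ∈ S₀ ∪ F, w u ≠ 0) →
    ∃ p ∈ T, γ p = q ∧ uu p = 0 ∧ ∑ u ∈ S₀ ∪ F, w u * nr p u ≠ 0
  · have hlt := hq hN
    set m := K * ((S₀ ∪ F).card + Nat.log 2 T.card + 1) with hm
    have h2 : (1 / 3 : ℝ) ^ m ≤ ∏ p ∈ T.filter (fun p => γ p = q), g3 p := by
      have e1 : ∏ p ∈ T.filter (fun p => γ p = q), g3 p =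
          ∏ p ∈ T.filter (fun p => γ p = q ∧ uu p = 1), g3 p := by
        rw [← filter_filter, prod_filter (s := T.filter fun p => γ p = q)]
        refine prod_congr rfl fun p hp => ?_
        by_cases htt : uu p = 1
        · rw [if_pos htt]
        · rw [if_neg htt]
          unfold g3
          rw [if_neg (fun h => htt (uu_one' h))]
      rw [e1]
      calc ((1 : ℝ) / 3) ^ m ≤ (1 / 3) ^ (T.filter (fun p => γ p = q ∧ uu p = 1)).card :=
            pow_le_pow_of_le_one (by norm_num) (by norm_num) hlt.le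
        _ = ∏ _p ∈ T.filter (fun p => γ p = q ∧ uu p = 1), ((1 : ℝ) / 3) := by rw [prod_const]
        _ ≤ ∏ p ∈ T.filter (fun p => γ p = q ∧ uu p = 1), g3 p :=
            prod_le_prod (fun _ _ => by norm_num) fun p _ => g3_ge p
    have h3 : (3 : ℝ) ^ m * (1 / 3) ^ m = 1 := by
      rw [← mul_pow]
      norm_num
    have h4 : (3 : ℝ) ^ m * (1 / 3) ^ m ≤ M * ∏ p ∈ T.filter (fun p => γ p = q), g3 p := by
      gcongr
    linarith
  · push Not at hN
    obtain ⟨w, ⟨u, hu, hw⟩, h2⟩ := hN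
    set W := (S₀ ∪ F).filter fun u => w u ≠ 0 with hWdef
    have hW : W ∈ (S₀ ∪ F).powerset.filter (fun W => W.Nonempty) := by
      rw [mem_filter, mem_powerset]
      exact ⟨filter_subset _ _, ⟨u, by rw [hWdef, mem_filter]; exact ⟨hu, hw⟩⟩⟩
    have h1 : ∏ p ∈ T.filter (fun p => γ p = q), gW W p = 1 := by
      refine prod_eq_one fun p hp => ?_
      rw [mem_filter] at hp
      unfold gW
      refine if_neg ?_
      rintro ⟨h8, hH⟩
      apply hH
      refine ⟨h8, fun hpW => hT p hp.1 (filter_subset _ _ hpW), ?_⟩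
      refine Eq.trans ?_ (h2 p hp.1 hp.2 (uu_zero h8))
      rw [hWdef, sum_filter]
      refine sum_congr rfl fun u _ => ?_
      have key : ∀ a : ZMod 2, a = 0 ∨ a = 1 := by decide
      rcases key (w u) with h | h
      · rw [h]
        simp
      · rw [h]
        simp
    have h3 := single_le_sum (f := fun W : Finset ℕ => ∏ p ∈ T.filter (fun p => γ p = q), gW W p)
      (fun W _ => prod_nonneg fun p _ => hg0 W p) hW
    beta_reduce at h3
    rw [h1] at h3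
    linarith

/-- the count over a fibre -/
theorem fibC {C : ℝ} (hC1 : 1 ≤ C)
    (hC : ∀ (r : ℝ) (Y : ℕ), 1 ≤ r → 3 ≤ Y →
    (∀ W : Finset ℕ, W.Nonempty → (∀ u ∈ W, Po u) →
      ∑ S ∈ SA Y, ∏ p ∈ S, (1 - (1 - gW W p) / r) ≤
        C * (1 + Real.log ((∏ u ∈ W, u : ℕ) : ℝ)) *
          ((Y : ℝ) * (Real.log Y) ^ (-(1 / (72 * r)) : ℝ))) ∧
    ∑ S ∈ SA Y, ∏ p ∈ S, (1 - (1 - g3 p) / r) ≤
        C * ((Y : ℝ) * (Real.log Y) ^ (-(1 / (72 * r)) : ℝ)))
    (Q : Type) [Fintype Q] [Nonempty Q] (Fx : Finset ℕ) (hFx : ∀ p ∈ Fx, Po p) (K : ℕ)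
    (X : ℕ) (S₀ : Finset ℕ) (hS₀ : ∀ u ∈ S₀, Po u ∧ u ≤ zz X)
    (hk : 1 ≤ kk X) (hT1 : 3 ≤ X / pN S₀) :
    ∑ S ∈ (SA X).filter (fun S => (S.card ≤ kk X ∧ Disjoint S Fx) ∧ sm (zz X) S = S₀),
      pr S (fun γ : ℕ → Q => ¬ NdK Fx K γ (sm (zz X) S) (la (zz X) S)) ≤
      (Fintype.card Q * ((1 + 3 ^ K) * (2 * 3 ^ K) ^ Fx.card *
          (C * (1 + Real.log (pN Fx))))) * (2 * 3 ^ K) ^ S₀.card * (kk X : ℝ) ^ (2 * K) *
        (1 + Real.log (pN S₀)) * (((X / pN S₀ : ℕ) : ℝ) *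
          (Real.log ((X / pN S₀ : ℕ) : ℝ)) ^ (-(1 / (72 * (Fintype.card Q : ℝ))) : ℝ)) := by
  set F := (SA X).filter (fun S => (S.card ≤ kk X ∧ Disjoint S Fx) ∧ sm (zz X) S = S₀) with hFdef
  set r : ℝ := (Fintype.card Q : ℝ) with hr
  have hr0 : 0 < r := card_pos' (Q := Q)
  have hr1 : 1 ≤ r := by
    rw [hr]
    exact_mod_cast Fintype.card_pos (α := Q)
  set U := S₀ ∪ Fx with hU
  have hU0 : ∀ u ∈ U, Po u := by
    intro u hu
    rcases mem_union.1 hu with h | h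
    · exact (hS₀ u h).1
    · exact hFx u h
  set PPP := U.powerset.filter (fun W => W.Nonempty) with hPPP
  set M : ℝ := 3 ^ K * (3 ^ K) ^ U.card * (kk X : ℝ) ^ (2 * K) with hMdef
  have hM0 : 0 ≤ M := by positivity
  have hF : ∀ S ∈ F, S ∈ SA X ∧ sm (zz X) S = S₀ := fun S hS => by
    rw [hFdef, mem_filter] at hS
    exact ⟨hS.1, hS.2.2⟩
  have hg0 : ∀ (W : Finset ℕ) (p : ℕ), 0 ≤ gW W p := fun W p => by
    have := gW_ge W p
    linarith
  have h30 : ∀ (p : ℕ), 0 ≤ g3 p := fun p => by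
    have := g3_ge p
    linarith
  -- the pointwise bound and the averages
  have h1 : ∀ S ∈ F, pr S (fun γ : ℕ → Q => ¬ NdK Fx K γ (sm (zz X) S) (la (zz X) S)) ≤
      r * (∑ W ∈ PPP, ∏ p ∈ la (zz X) S, (1 - (1 - gW W p) / r) +
        M * ∏ p ∈ la (zz X) S, (1 - (1 - g3 p) / r)) := by
    intro S hS
    have hS' := hS
    rw [hFdef, mem_filter] at hS'
    obtain ⟨hSA, ⟨hSk, hSF⟩, hSm⟩ := hS'
    have hT : ∀ p ∈ la (zz X) S, p ∉ S₀ ∪ Fx := by
      intro p hp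
      unfold la at hp
      rw [mem_filter] at hp
      intro h
      rcases mem_union.1 h with h | h
      · exact hp.2 (hS₀ p h).2
      · exact Finset.disjoint_left.1 hSF hp.1 h
    have hMM : (3 : ℝ) ^ (K * ((S₀ ∪ Fx).card + Nat.log 2 (la (zz X) S).card + 1)) ≤ M :=
      three_pow_le K U.card ((card_le_card (filter_subset _ _)).trans hSk) hk
    have h2 := pr_le_av S (fun γ : ℕ → Q => ¬ NdK Fx K γ (sm (zz X) S) (la (zz X) S))
      (fun γ => ∑ q : Q, (∑ W ∈ PPP, ∏ p ∈ (la (zz X) S).filter (fun p => γ p = q), gW W p +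
        M * ∏ p ∈ (la (zz X) S).filter (fun p => γ p = q), g3 p))
      (fun γ => sum_nonneg fun q _ => add_nonneg
        (sum_nonneg fun W _ => prod_nonneg fun p _ => hg0 _ _)
        (mul_nonneg hM0 (prod_nonneg fun p _ => h30 _)))
      (fun γ hγ => by
        rw [hSm] at hγ
        exact ptw Fx K S₀ _ hT γ M hMM hγ)
    refine h2.trans (le_of_eq ?_)
    rw [av_sum]
    have h3 : ∀ q : Q, av S (fun γ => ∑ W ∈ PPP, ∏ p ∈ (la (zz X) S).filter (fun p => γ p = q),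
        gW W p +
        M * ∏ p ∈ (la (zz X) S).filter (fun p => γ p = q), g3 p) =
        ∑ W ∈ PPP, ∏ p ∈ la (zz X) S, (1 - (1 - gW W p) / r) +
        M * ∏ p ∈ la (zz X) S, (1 - (1 - g3 p) / r) := by
      intro q
      have h5 : ∀ g : ℕ → ℝ, av S (fun γ => ∏ p ∈ (la (zz X) S).filter (fun p => γ p = q), g p) =
          ∏ p ∈ la (zz X) S, (1 - (1 - g p) / r) :=
        fun g => av_prod S _ (filter_subset _ _) q g
      rw [av_add, av_sum, av_mul, h5, sum_congr rfl fun W _ => h5 (gW W)]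
    rw [sum_congr rfl fun q _ => h3 q, sum_const, card_univ, nsmul_eq_mul]
  refine (sum_le_sum h1).trans ?_
  rw [← mul_sum, sum_add_distrib, sum_comm, ← mul_sum]
  set Z : ℝ := ((X / pN S₀ : ℕ) : ℝ) *
    (Real.log ((X / pN S₀ : ℕ) : ℝ)) ^ (-(1 / (72 * r)) : ℝ) with hZ
  have hlg0 : 0 ≤ Real.log ((X / pN S₀ : ℕ) : ℝ) := Real.log_natCast_nonneg _
  have hZ0 : 0 ≤ Z := mul_nonneg (Nat.cast_nonneg _) (Real.rpow_nonneg hlg0 _)
  have hlF : 0 ≤ Real.log (pN Fx) := Real.log_natCast_nonneg _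
  have hlS : 0 ≤ Real.log (pN S₀) := Real.log_natCast_nonneg _
  set B : ℝ := C * (1 + Real.log (pN Fx)) * (1 + Real.log (pN S₀)) * Z with hB
  have hC0 : 0 < C := by linarith
  have hB0 : 0 ≤ B := by
    rw [hB]
    positivity
  have hS₀' : ∀ u ∈ S₀, Po u := fun u hu => (hS₀ u hu).1
  obtain ⟨hCW, hC3⟩ := hC r (X / pN S₀) hr1 hT1
  have hav0 : ∀ g : ℕ → ℝ, (∀ p, 0 ≤ g p) → (∀ p, g p ≤ 1) → ∀ p, 0 ≤ 1 - (1 - g p) / r := by
    intro g h0 h1 p
    have h2 := h0 p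
    have h3 := h1 p
    have : (1 - g p) / r ≤ 1 := by
      rw [div_le_one hr0]
      linarith
    linarith
  have h4 : ∀ W ∈ PPP, ∑ S ∈ F, ∏ p ∈ la (zz X) S, (1 - (1 - gW W p) / r) ≤ B := by
    intro W hW
    rw [hPPP, mem_filter, mem_powerset] at hW
    have hWP : ∀ u ∈ W, Po u := fun u hu => hU0 u (hW.1 hu)
    refine (fiberW X (zz X) S₀ hS₀' F hF _ (hav0 (gW W) (hg0 W) (gW_le W))).trans ?_
    refine (hCW W hW.2 hWP).trans ?_
    rw [hB]
    refine mul_le_mul_of_nonneg_right ?_ hZ0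
    rw [mul_assoc]
    refine mul_le_mul_of_nonneg_left ?_ hC0.le
    have e1 : ∏ u ∈ W, u ≤ pN S₀ * pN Fx := by
      have e2 : ∏ u ∈ W, u ≤ ∏ u ∈ U, u :=
        prod_le_prod_of_subset_of_one_le' hW.1 fun u hu _ => (hU0 u hu).1.one_lt.le
      refine e2.trans ?_
      unfold pN
      rw [hU, ← Finset.prod_union_inter]
      exact Nat.le_mul_of_pos_right _ (prod_pos' fun p hp => (hS₀' p (mem_inter.1 hp).1).1)
    have hN0 : (0 : ℝ) < pN S₀ := by exact_mod_cast pN_pos hS₀'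
    have hF0 : (0 : ℝ) < pN Fx := by exact_mod_cast pN_pos hFx
    have hW0 : (0 : ℝ) < ((∏ u ∈ W, u : ℕ) : ℝ) := by
      exact_mod_cast prod_pos' fun p hp => (hWP p hp).1
    have e3 : Real.log ((∏ u ∈ W, u : ℕ) : ℝ) ≤ Real.log (pN S₀) + Real.log (pN Fx) := by
      rw [← Real.log_mul hN0.ne' hF0.ne']
      refine Real.log_le_log hW0 ?_
      exact_mod_cast e1
    nlinarith
  have h5 : ∑ S ∈ F, ∏ p ∈ la (zz X) S, (1 - (1 - g3 p) / r) ≤ B := by
    refine (fiberW X (zz X) S₀ hS₀' F hF _ (hav0 g3 h30 g3_le)).trans ?_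
    refine hC3.trans ?_
    rw [hB]
    refine mul_le_mul_of_nonneg_right ?_ hZ0
    have e1 : 1 ≤ (1 + Real.log (pN Fx)) * (1 + Real.log (pN S₀)) := by nlinarith
    rw [mul_assoc]
    nlinarith
  have hcP : (PPP.card : ℝ) ≤ 2 ^ U.card := by
    have : PPP.card ≤ 2 ^ U.card := by
      rw [← card_powerset]
      exact card_filter_le _ _
    exact_mod_cast this
  have h6 : ∑ W ∈ PPP, ∑ S ∈ F, ∏ p ∈ la (zz X) S, (1 - (1 - gW W p) / r) ≤ 2 ^ U.card * B := by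
    refine (sum_le_sum h4).trans ?_
    rw [sum_const, nsmul_eq_mul]
    exact mul_le_mul_of_nonneg_right hcP hB0
  have h7 : M * ∑ S ∈ F, ∏ p ∈ la (zz X) S, (1 - (1 - g3 p) / r) ≤ M * B :=
    mul_le_mul_of_nonneg_left h5 hM0
  have hk1 : (1 : ℝ) ≤ (kk X : ℝ) ^ (2 * K) := one_le_pow₀ (by exact_mod_cast hk)
  have h3K : (1 : ℝ) ≤ 3 ^ K := one_le_pow₀ (by norm_num)
  have h23 : (1 : ℝ) ≤ 2 * 3 ^ K := by linarith
  have hUc : U.card ≤ Fx.card + S₀.card := by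
    rw [hU, add_comm]
    exact card_union_le _ _
  have h8 : (2 : ℝ) ^ U.card ≤
      ((2 * 3 ^ K) ^ Fx.card * (2 * 3 ^ K) ^ S₀.card) * (kk X : ℝ) ^ (2 * K) := by
    have e1 : (2 : ℝ) ^ U.card ≤ (2 * 3 ^ K) ^ U.card :=
      pow_le_pow_left₀ (by norm_num) (by linarith) _
    have e2 : (2 * 3 ^ K : ℝ) ^ U.card ≤ (2 * 3 ^ K) ^ Fx.card * (2 * 3 ^ K) ^ S₀.card := by
      rw [← pow_add]
      exact pow_le_pow_right₀ h23 hUc
    have e3 : (0 : ℝ) ≤ (2 * 3 ^ K) ^ Fx.card * (2 * 3 ^ K) ^ S₀.card := by positivity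
    nlinarith
  have h9 : M ≤ 3 ^ K * (((2 * 3 ^ K) ^ Fx.card * (2 * 3 ^ K) ^ S₀.card) *
      (kk X : ℝ) ^ (2 * K)) := by
    rw [hMdef]
    have e1 : ((3 : ℝ) ^ K) ^ U.card ≤ (2 * 3 ^ K) ^ U.card :=
      pow_le_pow_left₀ (by positivity) (by linarith) _
    have e2 : (2 * 3 ^ K : ℝ) ^ U.card ≤ (2 * 3 ^ K) ^ Fx.card * (2 * 3 ^ K) ^ S₀.card := by
      rw [← pow_add]
      exact pow_le_pow_right₀ h23 hUc
    rw [mul_assoc]
    refine mul_le_mul_of_nonneg_left ?_ (by positivity)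
    exact mul_le_mul_of_nonneg_right (e1.trans e2) (by positivity)
  have h10 : 2 ^ U.card * B + M * B ≤
      (1 + 3 ^ K) * (((2 * 3 ^ K) ^ Fx.card * (2 * 3 ^ K) ^ S₀.card) *
      (kk X : ℝ) ^ (2 * K)) * B := by
    rw [← add_mul]
    refine mul_le_mul_of_nonneg_right ?_ hB0
    rw [add_mul, one_mul]
    exact add_le_add h8 h9
  calc r * (∑ W ∈ PPP, ∑ S ∈ F, ∏ p ∈ la (zz X) S, (1 - (1 - gW W p) / r) +
      M * ∑ S ∈ F, ∏ p ∈ la (zz X) S, (1 - (1 - g3 p) / r)) ≤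
      r * (2 ^ U.card * B + M * B) :=
        mul_le_mul_of_nonneg_left (add_le_add h6 h7) hr0.le
    _ ≤ r * ((1 + 3 ^ K) * (((2 * 3 ^ K) ^ Fx.card * (2 * 3 ^ K) ^ S₀.card) *
      (kk X : ℝ) ^ (2 * K)) * B) :=
        mul_le_mul_of_nonneg_left h10 hr0.le
    _ = _ := by rw [hB]; ring

/-- ZE-A-RARE -/
theorem t_RAREK : S_RAREK := by
  intro Q _ _ F hF K ε hε
  obtain ⟨C, hC1, hC⟩ := est
  have hr0 : (0 : ℝ) < Fintype.card Q := card_pos'
  have hr1 : (1 : ℝ) ≤ Fintype.card Q := by exact_mod_cast Fintype.card_pos (α := Q)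
  have hlF : 0 ≤ Real.log (pN F) := Real.log_natCast_nonneg _
  refine genN (2 * 3 ^ K) (Fintype.card Q * ((1 + 3 ^ K) * (2 * 3 ^ K) ^ F.card *
    (C * (1 + Real.log (pN F))))) (1 / (72 * Fintype.card Q)) (2 * K) (by positivity)
    (by positivity) (by positivity) (by rw [div_le_one (by positivity)]; linarith) F
    (fun X S => pr S (fun γ : ℕ → Q => ¬ NdK F K γ (sm (zz X) S) (la (zz X) S)))
    (fun X S₀ hS₀ _ hk hT1 => fibC hC1 hC Q F hF K X S₀ hS₀ hk hT1) ε hε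

end Pool.Agent.N123.ZE.RAREK
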