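import Pool.Agent.N869.ZE.A.Stm
import Pool.Agent.N124.QT.FBA
import Pool.Agent.N148.GB.BAD
import Pool.Agent.Y488.CX.Sie
import Pool.Agent.N19.GB.Parts
import Pool.Agent.Y495.CX.FEW

/-!
# Project ZE (helper869), part A-RARE (helper123), first half: the weighted sieve

Sums of multiplicative weights over the sets of odd primes with product at most `Y`.
-/

set_option autoImplicit false

open scoped Classical

namespace Pool.Agent.N123.ZE.RAREK

open Finset Filter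
open Pool.Agent.Y699.E (sum_le_inj)
open Pool.Agent.Y703.CX (sm la eL zz kk S_SIE)
open Pool.Agent.Y703.CQ (nr)
open Pool.Agent.N973.ND (uu)
open Pool.Agent.N916.GB (Po SA HD S_HAL S_ME8)
open Pool.Agent.N148.GB (NI mer)
open Pool.Agent.Y495.CX.Few (PN euler prod_pos' le_of_mem_prod)
open Pool.Agent.N124.QT (h_le sum_rpow_le)

lemma SA_mem {X : ℕ} {S : Finset ℕ} : S ∈ SA X ↔ (∀ p ∈ S, Po p) ∧ ∏ p ∈ S, p ≤ X := by
  unfold SA
  rw [mem_filter, mem_powerset]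
  constructor
  · exact fun h => h.2
  · intro h
    refine ⟨fun p hp => ?_, h⟩
    rw [mem_range]
    have := le_of_mem_prod (fun p hp => (h.1 p hp).1) h.2 hp
    omega

lemma SA_sub {X : ℕ} {S T : Finset ℕ} (hS : S ∈ SA X) (h : T ⊆ S) : T ∈ SA X := by
  rw [SA_mem] at hS ⊢
  refine ⟨fun p hp => hS.1 p (h hp), le_trans ?_ hS.2⟩
  exact prod_le_prod_of_subset_of_one_le' h fun p hp _ => (hS.1 p hp).1.one_lt.le

/-- the number of the sets -/
lemma card_SA (X : ℕ) : (SA X).card ≤ X := by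
  have h : (SA X).card ≤ (Icc 1 X).card := by
    refine card_le_card_of_injOn (fun S => ∏ p ∈ S, p) ?_ ?_
    · intro S hS
      rw [mem_coe, SA_mem] at hS
      rw [mem_coe, mem_Icc]
      exact ⟨prod_pos' fun p hp => (hS.1 p hp).1, hS.2⟩
    · intro S hS T hT h
      rw [mem_coe, SA_mem] at hS hT
      have h1 := Nat.primeFactors_prod fun p hp => (hS.1 p hp).1
      have h2 := Nat.primeFactors_prod fun p hp => (hT.1 p hp).1
      rw [← h1, ← h2]
      exact congrArg Nat.primeFactors h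
  rwa [Nat.card_Icc, Nat.add_sub_cancel] at h

/-- the weight of the random deletions -/
lemma del (P S : Finset ℕ) (hS : S ⊆ P) (g : ℕ → ℝ) :
    ∑ D ∈ P.powerset.filter (fun D => Disjoint S D), (∏ p ∈ D, (1 - g p)) * ∏ p ∈ P \ D, g p =
      ∏ p ∈ S, g p := by
  have e1 : P.powerset.filter (fun D => Disjoint S D) = (P \ S).powerset := by
    ext D
    rw [mem_filter, mem_powerset, mem_powerset, subset_sdiff, disjoint_comm]
  rw [e1]
  have e2 : ∀ D ∈ (P \ S).powerset, (∏ p ∈ D, (1 - g p)) * ∏ p ∈ P \ D, g p =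
      (∏ p ∈ S, g p) * ((∏ p ∈ D, (1 - g p)) * ∏ p ∈ (P \ S) \ D, g p) := by
    intro D hD
    rw [mem_powerset, subset_sdiff] at hD
    have e3 : P \ D = S ∪ ((P \ S) \ D) := by
      ext p
      simp only [Finset.mem_sdiff, Finset.mem_union]
      constructor
      · rintro ⟨h1, h2⟩
        by_cases h3 : p ∈ S
        · exact Or.inl h3
        · exact Or.inr ⟨⟨h1, h3⟩, h2⟩
      · rintro (h | h)
        · exact ⟨hS h, fun h' => Finset.disjoint_left.1 hD.2 h' h⟩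
        · exact ⟨h.1.1, h.2⟩
    have e4 : Disjoint S ((P \ S) \ D) :=
      disjoint_sdiff.mono_right sdiff_subset
    rw [e3, prod_union e4]
    ring
  rw [sum_congr rfl e2, ← mul_sum, ← Finset.prod_add]
  rw [prod_eq_one (fun p _ => by ring : ∀ p ∈ P \ S, (1 - g p + g p) = 1), mul_one]

/-- the sieve with weights -/
theorem wsieve : ∃ C : ℝ, 1 ≤ C ∧ ∀ (Y : ℕ) (g : ℕ → ℝ), 1 ≤ Y → (∀ p, 0 ≤ g p) → (∀ p, g p ≤ 1) →
    (∑ S ∈ SA Y, ∏ p ∈ S, g p) * Real.log Y ≤ C * Y * ∑ S ∈ SA Y, ∏ p ∈ S, (g p * (1 / (p : ℝ))) := by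
  obtain ⟨C, hC1, hC⟩ := Pool.Agent.Y488.CX.t_SIE
  refine ⟨C, hC1, fun Y g hY hg0 hg1 => ?_⟩
  set P := range (Y + 1) with hP
  have hSP : ∀ S ∈ SA Y, S ⊆ P := fun S hS => by
    unfold SA at hS
    rw [mem_filter, mem_powerset] at hS
    exact hS.1
  set μ : Finset ℕ → ℝ := fun D => (∏ p ∈ D, (1 - g p)) * ∏ p ∈ P \ D, g p with hμ
  have hμ0 : ∀ D, 0 ≤ μ D := fun D =>
    mul_nonneg (prod_nonneg fun p _ => by have := hg1 p; linarith) (prod_nonneg fun p _ => hg0 p)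
  have key : ∀ f : Finset ℕ → ℝ, ∑ S ∈ SA Y, f S * ∏ p ∈ S, g p =
      ∑ D ∈ P.powerset, μ D * ∑ S ∈ (SA Y).filter (fun S => Disjoint S D), f S := by
    intro f
    have e1 : ∀ S ∈ SA Y, f S * ∏ p ∈ S, g p =
        ∑ D ∈ P.powerset, if Disjoint S D then f S * μ D else 0 := by
      intro S hS
      rw [← del P S (hSP S hS) g, mul_sum, sum_filter]
    rw [sum_congr rfl e1, sum_comm]
    refine sum_congr rfl fun D _ => ?_
    rw [mul_sum, sum_filter]
    refine sum_congr rfl fun S _ => ?_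
    split_ifs
    · ring
    · rfl
  have h1 : ∑ S ∈ SA Y, ∏ p ∈ S, g p = ∑ D ∈ P.powerset, μ D *
      (((SA Y).filter (fun S => Disjoint S D)).card : ℝ) := by
    have := key fun _ => 1
    simp only [one_mul, sum_const, nsmul_eq_mul, mul_one] at this
    exact this
  have h2 : ∑ S ∈ SA Y, ∏ p ∈ S, (g p * (1 / (p : ℝ))) = ∑ D ∈ P.powerset, μ D *
      ∑ S ∈ (SA Y).filter (fun S => Disjoint S D), (1 : ℝ) / ((∏ p ∈ S, p : ℕ) : ℝ) := by
    rw [← key]
    refine sum_congr rfl fun S _ => ?_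
    rw [prod_mul_distrib, prod_div_distrib, prod_const_one]
    push_cast
    ring
  rw [h1, h2, sum_mul, mul_sum]
  refine sum_le_sum fun D _ => ?_
  have h3 := hC Y ((SA Y).filter (fun S => Disjoint S D)) hY
    (fun S hS => by
      rw [mem_filter, SA_mem] at hS
      exact ⟨fun p hp => (hS.1.1 p hp).1, hS.1.2⟩)
    (fun S hS T hT => by
      rw [mem_filter] at hS ⊢
      exact ⟨SA_sub hS.1 hT, hS.2.mono_left hT⟩)
  calc _ = μ D * ((((SA Y).filter (fun S => Disjoint S D)).card : ℝ) * Real.log Y) := by ring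
    _ ≤ μ D * (C * Y * ∑ S ∈ (SA Y).filter (fun S => Disjoint S D),
        (1 : ℝ) / ((∏ p ∈ S, p : ℕ) : ℝ)) := mul_le_mul_of_nonneg_left h3 (hμ0 D)
    _ = _ := by ring

/-- the primes `1` modulo `8` at which the product of the primes of `W` is a square -/
def Hp (W : Finset ℕ) (p : ℕ) : Prop := p % 8 = 1 ∧ p ∉ W ∧ ∑ u ∈ W, nr p u = 0

/-- the weight of a set `W` -/
noncomputable def gW (W : Finset ℕ) (p : ℕ) : ℝ := if p % 8 = 1 ∧ ¬ Hp W p then 1 / 3 else 1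

/-- the weight of the primes `3` modulo `4` -/
noncomputable def g3 (p : ℕ) : ℝ := if p % 4 = 3 then 1 / 3 else 1

lemma gW_ge (W : Finset ℕ) (p : ℕ) : 1 / 3 ≤ gW W p := by
  unfold gW
  split_ifs <;> norm_num

lemma gW_le (W : Finset ℕ) (p : ℕ) : gW W p ≤ 1 := by
  unfold gW
  split_ifs <;> norm_num

lemma g3_ge (p : ℕ) : 1 / 3 ≤ g3 p := by
  unfold g3
  split_ifs <;> norm_num

lemma g3_le (p : ℕ) : g3 p ≤ 1 := by
  unfold g3
  split_ifs <;> norm_num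

/-- the primes in a class modulo eight -/
lemma mer8 (a : ℕ) (ha : a % 2 = 1) (ha8 : a < 8) : ∃ C : ℝ, ∀ y : ℕ, 3 ≤ y →
    ∑ p ∈ (range (y + 1)).filter (fun p => p.Prime ∧ p % 8 = a), (1 : ℝ) / p ≤
      1 / 4 * Real.log (Real.log y) + C := by
  obtain ⟨C, hC⟩ := Pool.Agent.N19.GB.t_ME8 a ha
  refine ⟨C, fun y hy => ?_⟩
  have h := (abs_le.1 (hC y hy)).2
  rw [Nat.mod_eq_of_lt ha8] at h
  linarith

/-- the logarithmic sum for the weight of a set -/
theorem logW : ∃ C : ℝ, 1 ≤ C ∧ ∀ (W : Finset ℕ) (Y : ℕ), W.Nonempty → (∀ u ∈ W, Po u) → 3 ≤ Y →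
    ∑ S ∈ SA Y, ∏ p ∈ S, (gW W p * (1 / (p : ℝ))) ≤
      C * (1 + Real.log ((∏ u ∈ W, u : ℕ) : ℝ)) * (Real.log Y) ^ (23 / 24 : ℝ) := by
  obtain ⟨C₂, h21, h2⟩ := Pool.Agent.N148.GB.t_HAL
  obtain ⟨C₄, h4⟩ := mer Pool.Agent.N19.GB.t_ME8
  obtain ⟨C₅, h5⟩ := mer8 1 (by norm_num) (by norm_num)
  refine ⟨C₂ * Real.exp (|C₄| + |C₅|), ?_, fun W Y hW hW1 hY => ?_⟩
  · have := Real.one_le_exp (show 0 ≤ |C₄| + |C₅| by positivity)
    nlinarith
  have hlY : 1 ≤ Real.log Y := by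
    rw [Real.le_log_iff_exp_le (by exact_mod_cast (by omega : 0 < Y))]
    have h1 := Real.exp_one_lt_d9
    have h3 : (3 : ℝ) ≤ Y := by exact_mod_cast hY
    linarith
  have hlY0 : 0 < Real.log Y := by linarith
  set R := (range (Y + 1)).filter fun p => Po p ∧ ¬ Hp W p with hR
  have hnn : ∀ p : ℕ, 0 ≤ gW W p * (1 / (p : ℝ)) := fun p =>
    mul_nonneg (by have := gW_ge W p; linarith) (by positivity)
  have hsplit : ∑ S ∈ SA Y, ∏ p ∈ S, (gW W p * (1 / (p : ℝ))) ≤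
      (∑ S ∈ HD W Y, (1 : ℝ) / ((∏ p ∈ S, p : ℕ) : ℝ)) *
        ∑ T ∈ R.powerset, ∏ p ∈ T, (gW W p * (1 / (p : ℝ))) := by
    rw [sum_mul_sum, ← sum_product' (f := fun S T => (1 : ℝ) / ((∏ p ∈ S, p : ℕ) : ℝ) *
      ∏ p ∈ T, (gW W p * (1 / (p : ℝ))))]
    refine sum_le_inj (fun T => (T.filter (fun p => Hp W p), T.filter (fun p => ¬ Hp W p)))
      ?_ ?_ ?_ ?_
    · intro T hT
      have hT' := hT
      rw [SA_mem] at hT'
      obtain ⟨h1, h3⟩ := hT'
      unfold SA at hT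
      rw [mem_filter, mem_powerset] at hT
      rw [mem_product]
      refine ⟨?_, ?_⟩
      · rw [HD, mem_filter, mem_powerset]
        refine ⟨(filter_subset _ _).trans hT.1, fun p hp => ?_, ?_⟩
        · obtain ⟨k1, k2⟩ := mem_filter.1 hp
          exact ⟨(h1 p k1).1, k2.1, k2.2.1, k2.2.2⟩
        · exact (SA_mem.1 (SA_sub (SA_mem.2 ⟨h1, h3⟩) (filter_subset (fun p => Hp W p) T))).2
      · rw [mem_powerset]
        intro p hp
        obtain ⟨k1, k2⟩ := mem_filter.1 hp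
        rw [hR, mem_filter]
        exact ⟨hT.1 k1, h1 p k1, k2⟩
    · intro S hS T hT h
      simp only [Prod.mk.injEq] at h
      rw [← filter_union_filter_not_eq (fun p => Hp W p) S,
        ← filter_union_filter_not_eq (fun p => Hp W p) T, h.1, h.2]
    · intro T hT
      apply le_of_eq
      have e1 : ∏ p ∈ T, (gW W p * (1 / (p : ℝ))) =
          (∏ p ∈ T.filter (fun p => Hp W p), (gW W p * (1 / (p : ℝ)))) *
          ∏ p ∈ T.filter (fun p => ¬ Hp W p), (gW W p * (1 / (p : ℝ))) :=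
        (prod_filter_mul_prod_filter_not T (fun p => Hp W p) _).symm
      rw [e1]
      simp only
      congr 1
      have e2 : ∀ p ∈ T.filter (fun p => Hp W p), gW W p * (1 / (p : ℝ)) = 1 / (p : ℝ) := by
        intro p hp
        unfold gW
        rw [if_neg (fun h => h.2 (mem_filter.1 hp).2), one_mul]
      rw [prod_congr rfl e2, prod_div_distrib, prod_const_one]
      push_cast
      rfl
    · intro x _
      exact mul_nonneg (by positivity) (prod_nonneg fun p _ => hnn p)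
  have hR1 : ∑ T ∈ R.powerset, ∏ p ∈ T, (gW W p * (1 / (p : ℝ))) ≤
      Real.exp (|C₄| + |C₅|) * (Real.log Y) ^ (5 / 6 : ℝ) := by
    refine (euler R _ fun p _ => hnn p).trans ?_
    rw [Real.rpow_def_of_pos hlY0, ← Real.exp_add]
    apply Real.exp_le_exp.2
    have e1 : ∑ p ∈ R, gW W p * (1 / (p : ℝ)) ≤ ∑ p ∈ NI Y, (1 : ℝ) / p +
        1 / 3 * ∑ p ∈ (range (Y + 1)).filter (fun p => p.Prime ∧ p % 8 = 1), (1 : ℝ) / p := by
      rw [← sum_filter_add_sum_filter_not R (fun p => p % 8 = 1), add_comm]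
      refine add_le_add ?_ ?_
      · have e2 : ∀ p ∈ R.filter (fun p => ¬ p % 8 = 1), gW W p * (1 / (p : ℝ)) = 1 / (p : ℝ) := by
          intro p hp
          unfold gW
          rw [if_neg (fun h => (mem_filter.1 hp).2 h.1), one_mul]
        rw [sum_congr rfl e2]
        refine sum_le_sum_of_subset_of_nonneg ?_ fun _ _ _ => by positivity
        intro p hp
        rw [mem_filter, hR, mem_filter] at hp
        rw [NI, mem_filter]
        exact ⟨hp.1.1, hp.1.2.1, hp.2⟩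
      · rw [mul_sum]
        have e2 : ∀ p ∈ R.filter (fun p => p % 8 = 1), gW W p * (1 / (p : ℝ)) =
            1 / 3 * (1 / (p : ℝ)) := by
          intro p hp
          rw [mem_filter, hR, mem_filter] at hp
          unfold gW
          rw [if_pos ⟨hp.2, hp.1.2.2⟩]
        rw [sum_congr rfl e2]
        refine sum_le_sum_of_subset_of_nonneg ?_ fun _ _ _ => by positivity
        intro p hp
        rw [mem_filter, hR, mem_filter] at hp
        rw [mem_filter]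
        exact ⟨hp.1.1, hp.1.2.1.1, hp.2⟩
    have e2 := h4 Y hY
    have e3 := h5 Y hY
    have e4 := le_abs_self C₄
    have e5 := le_abs_self C₅
    have e6 := abs_nonneg C₅
    linarith
  have hH := h2 W Y hW hW1 (by omega)
  have hlW : 0 ≤ Real.log ((∏ u ∈ W, u : ℕ) : ℝ) := Real.log_natCast_nonneg _
  have hhalf : (Real.log ((∏ u ∈ W, u : ℕ) : ℝ)) ^ (1 / 2 : ℝ) ≤
      1 + Real.log ((∏ u ∈ W, u : ℕ) : ℝ) := by
    refine (Real.rpow_le_rpow hlW (by linarith : _ ≤ 1 + Real.log ((∏ u ∈ W, u : ℕ) : ℝ))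
      (by norm_num)).trans ?_
    have := Real.rpow_le_rpow_of_exponent_le
      (show (1 : ℝ) ≤ 1 + Real.log ((∏ u ∈ W, u : ℕ) : ℝ) by linarith)
      (show (1 / 2 : ℝ) ≤ 1 by norm_num)
    rwa [Real.rpow_one] at this
  have hpp : (Real.log Y) ^ (23 / 24 : ℝ) = (Real.log Y) ^ (1 / 8 : ℝ) * (Real.log Y) ^ (5 / 6 : ℝ) := by
    rw [← Real.rpow_add hlY0]
    norm_num
  have h50 : 0 ≤ ∑ S ∈ HD W Y, (1 : ℝ) / ((∏ p ∈ S, p : ℕ) : ℝ) :=
    sum_nonneg fun _ _ => by positivity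
  have h51 : 0 ≤ ∑ T ∈ R.powerset, ∏ p ∈ T, (gW W p * (1 / (p : ℝ))) :=
    sum_nonneg fun _ _ => prod_nonneg fun p _ => hnn p
  have hC20 : 0 ≤ C₂ := by linarith
  have hr1 : 0 ≤ (Real.log Y) ^ (1 / 8 : ℝ) := Real.rpow_nonneg hlY0.le _
  have hr2 : 0 ≤ (Real.log Y) ^ (5 / 6 : ℝ) := Real.rpow_nonneg hlY0.le _
  calc _ ≤ _ := hsplit
    _ ≤ (C₂ * (Real.log ((∏ u ∈ W, u : ℕ) : ℝ)) ^ (1 / 2 : ℝ) * (Real.log Y) ^ (1 / 8 : ℝ)) *
        (Real.exp (|C₄| + |C₅|) * (Real.log Y) ^ (5 / 6 : ℝ)) :=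
        mul_le_mul hH hR1 h51 (h50.trans hH)
    _ ≤ (C₂ * (1 + Real.log ((∏ u ∈ W, u : ℕ) : ℝ)) * (Real.log Y) ^ (1 / 8 : ℝ)) *
        (Real.exp (|C₄| + |C₅|) * (Real.log Y) ^ (5 / 6 : ℝ)) := by
        gcongr
    _ = _ := by
        rw [hpp]
        ring

/-- the logarithmic sum for the primes `3` modulo `4` -/
theorem log3 : ∃ C : ℝ, 1 ≤ C ∧ ∀ (Y : ℕ), 3 ≤ Y →
    ∑ S ∈ SA Y, ∏ p ∈ S, (g3 p * (1 / (p : ℝ))) ≤ C * (Real.log Y) ^ (23 / 24 : ℝ) := by
  obtain ⟨C₁, h1⟩ := mer8 1 (by norm_num) (by norm_num)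
  obtain ⟨C₃, h3⟩ := mer8 3 (by norm_num) (by norm_num)
  obtain ⟨C₅, h5⟩ := mer8 5 (by norm_num) (by norm_num)
  obtain ⟨C₇, h7⟩ := mer8 7 (by norm_num) (by norm_num)
  refine ⟨Real.exp (|C₁| + |C₃| + |C₅| + |C₇|), Real.one_le_exp (by positivity), fun Y hY => ?_⟩
  have hlY : 1 ≤ Real.log Y := by
    rw [Real.le_log_iff_exp_le (by exact_mod_cast (by omega : 0 < Y))]
    have h1 := Real.exp_one_lt_d9
    have h3 : (3 : ℝ) ≤ Y := by exact_mod_cast hY
    linarith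
  have hlY0 : 0 < Real.log Y := by linarith
  have hll0 : 0 ≤ Real.log (Real.log Y) := Real.log_nonneg hlY
  have hnn : ∀ p : ℕ, 0 ≤ g3 p * (1 / (p : ℝ)) := fun p =>
    mul_nonneg (by have := g3_ge p; linarith) (by positivity)
  set D := (range (Y + 1)).filter fun p => Po p with hD
  have e0 : ∑ S ∈ SA Y, ∏ p ∈ S, (g3 p * (1 / (p : ℝ))) ≤
      ∑ S ∈ D.powerset, ∏ p ∈ S, (g3 p * (1 / (p : ℝ))) := by
    refine sum_le_sum_of_subset_of_nonneg ?_ fun S _ _ => prod_nonneg fun p _ => hnn p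
    intro S hS
    have hS' := (SA_mem.1 hS).1
    unfold SA at hS
    rw [mem_filter, mem_powerset] at hS
    rw [mem_powerset]
    intro p hp
    rw [hD, mem_filter]
    exact ⟨hS.1 hp, hS' p hp⟩
  refine e0.trans ((euler D _ fun p _ => hnn p).trans ?_)
  rw [Real.rpow_def_of_pos hlY0, ← Real.exp_add]
  apply Real.exp_le_exp.2
  set c : ℕ → ℝ := fun a => ∑ p ∈ (range (Y + 1)).filter (fun p => p.Prime ∧ p % 8 = a), (1 : ℝ) / p
    with hc
  have hcl : ∀ a : ℕ, ∑ p ∈ (range (Y + 1)).filter (fun p => p.Prime ∧ p % 8 = a), (1 : ℝ) / p =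
      c a := fun a => rfl
  have e1 : ∑ p ∈ D, g3 p * (1 / (p : ℝ)) ≤ c 1 + 1 / 3 * c 3 + c 5 + 1 / 3 * c 7 := by
    rw [hc]
    simp only
    rw [mul_sum, mul_sum, hD, sum_filter, sum_filter, sum_filter, sum_filter, sum_filter,
      ← sum_add_distrib, ← sum_add_distrib, ← sum_add_distrib]
    refine sum_le_sum fun p _ => ?_
    by_cases hp : Po p
    · rw [if_pos hp]
      have hodd := hp.1.eq_two_or_odd
      have hp1 := hp.1
      have hp2 := hp.2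
      have h8 : p % 8 = 1 ∨ p % 8 = 3 ∨ p % 8 = 5 ∨ p % 8 = 7 := by omega
      unfold g3
      rcases h8 with h | h | h | h
      · rw [if_neg (by omega), if_pos ⟨hp1, h⟩, if_neg (by omega), if_neg (by omega),
          if_neg (by omega)]
        linarith
      · rw [if_pos (by omega), if_neg (by omega), if_pos ⟨hp1, h⟩, if_neg (by omega),
          if_neg (by omega)]
        linarith
      · rw [if_neg (by omega), if_neg (by omega), if_neg (by omega), if_pos ⟨hp1, h⟩,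
          if_neg (by omega)]
        linarith
      · rw [if_pos (by omega), if_neg (by omega), if_neg (by omega), if_neg (by omega),
          if_pos ⟨hp1, h⟩]
        linarith
    · rw [if_neg hp]
      have h0 : (0 : ℝ) ≤ 1 / p := by positivity
      split_ifs <;> linarith
  have f1 := h1 Y hY
  have f3 := h3 Y hY
  have f5 := h5 Y hY
  have f7 := h7 Y hY
  rw [hcl] at f1 f3 f5 f7
  have g1 := le_abs_self C₁
  have g3' := le_abs_self C₃
  have g5 := le_abs_self C₅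
  have g7 := le_abs_self C₇
  have k3 := abs_nonneg C₃
  have k7 := abs_nonneg C₇
  linarith

/-- the sieve bounds give bounds for the sums of the averaged weights -/
theorem avg {A T : ℝ} {Y : ℕ} (g : ℕ → ℝ) (hg0 : ∀ p, 1 / 3 ≤ g p) (hg1 : ∀ p, g p ≤ 1)
    {r : ℝ} (hr : 1 ≤ r) (hA : 1 ≤ A) (hY : 3 ≤ Y) (hT : T = (Y : ℝ))
    (h : ∑ S ∈ SA Y, ∏ p ∈ S, g p ≤ A * (T * (Real.log Y) ^ (-(1 / 24) : ℝ))) :
    ∑ S ∈ SA Y, ∏ p ∈ S, (1 - (1 - g p) / r) ≤
      A * (T * (Real.log Y) ^ (-(1 / (72 * r)) : ℝ)) := by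
  subst hT
  have hr0 : 0 < r := by linarith
  have hh0 : ∀ p, 0 ≤ 1 - (1 - g p) / r := by
    intro p
    have h1 := hg0 p
    have h2 := hg1 p
    have : (1 - g p) / r ≤ 1 := by
      rw [div_le_one hr0]
      linarith
    linarith
  set θ : ℝ := 1 / (3 * r) with hθ
  have hθ0 : 0 < θ := by rw [hθ]; positivity
  have hθ1 : θ ≤ 1 := by
    rw [hθ, div_le_one (by positivity)]
    linarith
  have h1 : ∀ S ∈ SA Y, ∏ p ∈ S, (1 - (1 - g p) / r) ≤ (∏ p ∈ S, g p) ^ θ := by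
    intro S _
    rw [← Real.finsetProd_rpow _ _ (fun p _ => by have := hg0 p; linarith)]
    exact prod_le_prod (fun p _ => hh0 p) fun p _ => h_le hr (hg0 p) (hg1 p)
  refine (sum_le_sum h1).trans ?_
  have h2 := sum_rpow_le (SA Y) (fun S => ∏ p ∈ S, g p)
    (fun S _ => prod_nonneg fun p _ => by have := hg0 p; linarith) hθ0 hθ1
    (show ((SA Y).card : ℝ) ≤ (Y : ℝ) by exact_mod_cast card_SA Y) h
  refine h2.trans ?_
  have hT0 : (0 : ℝ) < Y := by exact_mod_cast (by omega : 0 < Y)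
  have hl1 : 1 ≤ Real.log Y := by
    rw [Real.le_log_iff_exp_le hT0]
    have h1 := Real.exp_one_lt_d9
    have h3 : (3 : ℝ) ≤ Y := by exact_mod_cast hY
    linarith
  have hl0 : 0 < Real.log Y := by linarith
  have hA0 : 0 < A := by linarith
  have e1 : (Y : ℝ) ^ (1 - θ) * (A * (Y * (Real.log Y) ^ (-(1 / 24) : ℝ))) ^ θ =
      A ^ θ * (Y * (Real.log Y) ^ (-(1 / (72 * r)) : ℝ)) := by
    rw [Real.mul_rpow hA0.le (by positivity), Real.mul_rpow hT0.le (by positivity),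
      ← Real.rpow_mul hl0.le (-(1 / 24)) θ]
    have e2 : (Y : ℝ) ^ (1 - θ) * (Y : ℝ) ^ θ = Y := by
      rw [← Real.rpow_add hT0]
      norm_num
    have e3 : (-(1 / 24) : ℝ) * θ = -(1 / (72 * r)) := by
      rw [hθ]
      field_simp
      norm_num
    rw [e3]
    calc _ = A ^ θ * (((Y : ℝ) ^ (1 - θ) * (Y : ℝ) ^ θ) * (Real.log Y) ^ (-(1 / (72 * r)) : ℝ)) := by
          ring
      _ = _ := by rw [e2]
  rw [e1]
  have f2 : A ^ θ ≤ A := by
    calc A ^ θ ≤ A ^ (1 : ℝ) := Real.rpow_le_rpow_of_exponent_le hA hθ1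
      _ = A := Real.rpow_one _
  gcongr

/-- the two estimates together -/
theorem est : ∃ C : ℝ, 1 ≤ C ∧ ∀ (r : ℝ) (Y : ℕ), 1 ≤ r → 3 ≤ Y →
    (∀ W : Finset ℕ, W.Nonempty → (∀ u ∈ W, Po u) →
      ∑ S ∈ SA Y, ∏ p ∈ S, (1 - (1 - gW W p) / r) ≤
        C * (1 + Real.log ((∏ u ∈ W, u : ℕ) : ℝ)) *
          ((Y : ℝ) * (Real.log Y) ^ (-(1 / (72 * r)) : ℝ))) ∧
    ∑ S ∈ SA Y, ∏ p ∈ S, (1 - (1 - g3 p) / r) ≤
        C * ((Y : ℝ) * (Real.log Y) ^ (-(1 / (72 * r)) : ℝ)) := by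
  obtain ⟨C₁, h11, h1⟩ := wsieve
  obtain ⟨C₂, h21, h2⟩ := logW
  obtain ⟨C₃, h31, h3⟩ := log3
  have hC1 : 0 < C₁ := by linarith
  refine ⟨C₁ * (C₂ + C₃), by nlinarith, fun r Y hr hY => ?_⟩
  have hT0 : (0 : ℝ) < Y := by exact_mod_cast (by omega : 0 < Y)
  have hl1 : 1 ≤ Real.log Y := by
    rw [Real.le_log_iff_exp_le hT0]
    have h1 := Real.exp_one_lt_d9
    have h3 : (3 : ℝ) ≤ Y := by exact_mod_cast hY
    linarith
  have hl0 : 0 < Real.log Y := by linarith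
  have hpow : (Real.log Y) ^ (23 / 24 : ℝ) = (Real.log Y) ^ (-(1 / 24) : ℝ) * Real.log Y := by
    have : (Real.log Y) ^ (23 / 24 : ℝ) = (Real.log Y) ^ (-(1 / 24) : ℝ) * (Real.log Y) ^ (1 : ℝ) := by
      rw [← Real.rpow_add hl0]
      norm_num
    rwa [Real.rpow_one] at this
  have hr0 : 0 < (Real.log Y) ^ (-(1 / 24) : ℝ) := Real.rpow_pos_of_pos hl0 _
  have main : ∀ (g : ℕ → ℝ) (A : ℝ), (∀ p, 1 / 3 ≤ g p) → (∀ p, g p ≤ 1) → 1 ≤ A →
      ∑ S ∈ SA Y, ∏ p ∈ S, (g p * (1 / (p : ℝ))) ≤ A * (Real.log Y) ^ (23 / 24 : ℝ) →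
      ∑ S ∈ SA Y, ∏ p ∈ S, (1 - (1 - g p) / r) ≤
        C₁ * A * ((Y : ℝ) * (Real.log Y) ^ (-(1 / (72 * r)) : ℝ)) := by
    intro g A hg0 hg1 hA h
    refine avg g hg0 hg1 hr (by nlinarith) hY rfl ?_
    have h4 := h1 Y g (by omega) (fun p => by have := hg0 p; linarith) hg1
    have h5 : C₁ * Y * ∑ S ∈ SA Y, ∏ p ∈ S, (g p * (1 / (p : ℝ))) ≤
        C₁ * Y * (A * (Real.log Y) ^ (23 / 24 : ℝ)) :=
      mul_le_mul_of_nonneg_left h (by positivity)
    have h6 := h4.trans h5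
    rw [hpow] at h6
    have h7 : C₁ * Y * (A * ((Real.log Y) ^ (-(1 / 24) : ℝ) * Real.log Y)) =
        (C₁ * A * (Y * (Real.log Y) ^ (-(1 / 24) : ℝ))) * Real.log Y := by ring
    rw [h7] at h6
    exact le_of_mul_le_mul_right h6 hl0
  have hrr : 0 ≤ (Y : ℝ) * (Real.log Y) ^ (-(1 / (72 * r)) : ℝ) :=
    mul_nonneg hT0.le (Real.rpow_nonneg hl0.le _)
  refine ⟨fun W hW hW1 => ?_, ?_⟩
  · have hlW : 0 ≤ Real.log ((∏ u ∈ W, u : ℕ) : ℝ) := Real.log_natCast_nonneg _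
    refine (main (gW W) (C₂ * (1 + Real.log ((∏ u ∈ W, u : ℕ) : ℝ))) (gW_ge W) (gW_le W)
      (by nlinarith) (h2 W Y hW hW1 hY)).trans ?_
    refine mul_le_mul_of_nonneg_right ?_ hrr
    calc C₁ * (C₂ * (1 + Real.log ((∏ u ∈ W, u : ℕ) : ℝ))) =
        C₁ * C₂ * (1 + Real.log ((∏ u ∈ W, u : ℕ) : ℝ)) := by ring
      _ ≤ _ := by
          refine mul_le_mul_of_nonneg_right ?_ (by linarith)
          exact mul_le_mul_of_nonneg_left (by linarith) hC1.le
  · refine (main g3 C₃ g3_ge g3_le h31 (h3 Y hY)).trans ?_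
    refine mul_le_mul_of_nonneg_right ?_ hrr
    exact mul_le_mul_of_nonneg_left (by linarith) hC1.le

end Pool.Agent.N123.ZE.RAREK
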